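import Pool.Agent.U389.GD.A

/-!
# Goddyn's conjecture for weights with additive slack in the cuts

Let `w` be an eulerian admissible weight of a finite graph `G`. The starting result `SlackedWeights`
gives a faithful circuit cover if `w(e) ≤ (1 - ε) w(T \ e)` for all cuts `T` with at least three edges
and `w ≥ 40000 ε⁻² log (2 N)`, where `N` is the number of edges. So for larger weights the slack
`w(T \ e) - w(e)` which is needed there grows with the weights. Here a slack of `L (|T| - 2)` is enough,
whatever the size of the weights, where `L` depends only on the treewidth of `G`, or only on the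
length of the longest circuit (and is at most of order `√n (log N)^{1/4}` for every graph with `n`
vertices and `N` edges); and for graphs of bounded treewidth or with short circuits the relative
slack `ε` is enough as soon as `w ≥ L / ε`, without the logarithm of the size of the graph.

Proof. By Seymour's theorem on sums of circuits (library: `W831.ECC`) the conditions on the cuts say
that `w - L` is a nonnegative combination of circuits. By a theorem on near-constant weights
(library: `N411.CV`), applied to `w + 2M` and to `2M` for a large constant `M`, the weight `w` is an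
integral combination of circuits. So the theorems of our results on `MP_20b97f_co` apply
(`BoundedTreewidth`: the fractional cover is rounded by its Fourier coefficients along a tree
decomposition; `ShortCircuits`: rounding with small error on every edge).
-/

set_option autoImplicit false
set_option linter.unusedSectionVars false

namespace Pool.Agent.Results.MP_5dc923_co.AdditiveSlack

open Pool.Agent.H126R2.CDC (MGraph)

variable {V E : Type} [Fintype V] [DecidableEq V] [Fintype E] [DecidableEq E]

/-- `T` is the set `δ(X)` of the edges with exactly one end in `X`. -/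
def IsCut (G : MGraph V E) (X : Finset V) (T : Finset E) : Prop :=
  ∀ f, f ∈ T ↔ ∃ a ∈ X, ∃ b ∉ X, G.ends f = s(a, b)

/-- `w` is eulerian: the weight of every cut is even. -/
def Eulerian (G : MGraph V E) (w : E → ℕ) : Prop :=
  ∀ (X : Finset V) (T : Finset E), IsCut G X T → Even (∑ e ∈ T, w e)

/-- `w` is admissible: `w(e) ≤ w(T) / 2` for every edge `e` of every cut `T`. -/
def Admissible (G : MGraph V E) (w : E → ℕ) : Prop :=
  ∀ (X : Finset V) (T : Finset E), IsCut G X T → ∀ e ∈ T, 2 * w e ≤ ∑ f ∈ T, w f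

/-- `(G, w)` has a faithful circuit cover. -/
def HasFaithfulCover (G : MGraph V E) (w : E → ℕ) : Prop :=
  ∃ F : Multiset (Finset E), (∀ C ∈ F, G.IsCircuit C) ∧
    ∀ e, F.countP (fun C => e ∈ C) = w e

/-- `G` (loops and parallel edges allowed) has a tree decomposition of width at most `k`: a finite
tree `T` and a set `bag x` of at most `k + 1` vertices for each node `x`, such that for every vertex
`w` the nodes `x` with `w ∈ bag x` induce a nonempty connected subgraph of `T`, and the ends of every
edge lie in a common bag. -/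
def TreewidthAtMost (G : MGraph V E) (k : ℕ) : Prop :=
  ∃ (N : Type) (_ : Fintype N) (T : SimpleGraph N) (bag : N → Finset V), T.IsTree ∧
    (∀ w, (T.induce {x | w ∈ bag x}).Connected) ∧
    (∀ e, ∃ x, ∀ w ∈ G.ends e, w ∈ bag x) ∧ ∀ x, (bag x).card ≤ k + 1

/-- Every circuit of `G` has at most `ℓ` edges. -/
def CircuitsAtMost (G : MGraph V E) (ℓ : ℕ) : Prop := ∀ C, G.IsCircuit C → C.card ≤ ℓ

/-- The number `D`, the minimum of `ℓ`, of `3120 √ℓ + 832000 √X (1 + log ℓ)^{3/2}` and of
`42500 √ℓ X^{1/4}`, where `X = 1 + log N`. -/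
noncomputable def D (ℓ N : ℕ) : ℝ :=
  min (ℓ : ℝ)
    (min (3120 * Real.sqrt ℓ + 832000 * Real.sqrt (1 + Real.log N) *
        (1 + Real.log ℓ) ^ (3 / 2 : ℝ))
      (42500 * Real.sqrt ℓ * (1 + Real.log N) ^ (1 / 4 : ℝ)))

/-- `L` is a sufficient depth: `L ≥ 2 ^ (4 k + 5)`, where `k ≥ 1` is at least the treewidth of `G`, or
`L ≥ 8 D(ℓ, N) + 46`, where no circuit has more than `ℓ` edges and `N` is the number of edges. -/
def Depth (G : MGraph V E) (L : ℝ) : Prop :=
  (∃ k : ℕ, 1 ≤ k ∧ TreewidthAtMost G k ∧ (2 : ℝ) ^ (4 * k + 5) ≤ L) ∨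
    ∃ ℓ : ℕ, CircuitsAtMost G ℓ ∧ 8 * D ℓ (Fintype.card E) + 46 ≤ L

theorem D_nonneg (ℓ N : ℕ) : 0 ≤ D ℓ N := Pool.Agent.U389.SC.err_nonneg ℓ N

theorem Depth.pos {G : MGraph V E} {L : ℝ} (h : Depth G L) : 0 < L := by
  rcases h with ⟨k, -, -, h⟩ | ⟨ℓ, -, h⟩
  · exact lt_of_lt_of_le (by positivity) h
  · have := D_nonneg ℓ (Fintype.card E)
    linarith

theorem additive (G : MGraph V E) (w : E → ℕ) (heul : Eulerian G w) (hadm : Admissible G w)
    (L : ℝ) (hL : Depth G L) (hw : ∀ e, L ≤ w e)
    (hs : ∀ (X : Finset V) (T : Finset E), IsCut G X T → 3 ≤ T.card → ∀ e ∈ T,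
      (w e : ℝ) + L * ((T.card : ℝ) - 2) ≤ ∑ f ∈ T.erase e, (w f : ℝ)) : HasFaithfulCover G w := by
  have hL0 := hL.pos
  have hcut : ∀ (X : Finset V) (T : Finset E), IsCut G X T → ∀ e ∈ T,
      (w e : ℝ) - L ≤ ∑ f ∈ T.erase e, ((w f : ℝ) - L) := by
    intro X T hT e he
    have hc : (T.erase e).card + 1 = T.card := Finset.card_erase_add_one he
    have hc' : ((T.erase e).card : ℝ) = (T.card : ℝ) - 1 := by
      rw [← hc]
      push_cast
      ring
    rw [Finset.sum_sub_distrib, Finset.sum_const, nsmul_eq_mul, hc']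
    have key : (w e : ℝ) + L * ((T.card : ℝ) - 2) ≤ ∑ f ∈ T.erase e, (w f : ℝ) := by
      by_cases h3 : 3 ≤ T.card
      · exact hs X T hT h3 e he
      · have h4 : (T.card : ℝ) ≤ 2 := by
          have : T.card ≤ 2 := by omega
          exact_mod_cast this
        have h5 : w e ≤ ∑ f ∈ T.erase e, w f := by
          have h6 := hadm X T hT e he
          have h7 := Finset.add_sum_erase T w he
          omega
        have h8 : (w e : ℝ) ≤ ∑ f ∈ T.erase e, (w f : ℝ) := by exact_mod_cast h5
        nlinarith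
    linarith
  rcases hL with ⟨k, hk, ⟨N, hN, T, bag, h1, h2, h3, h4⟩, hkL⟩ | ⟨ℓ, hℓ, hDL⟩
  · exact Pool.Agent.U389.GD.goddyn_tw G hk ⟨T, h1, bag, h2, h3, h4⟩ w heul hadm L hkL hw hcut
  · refine Pool.Agent.U389.GD.goddyn_short G ℓ hℓ w heul hadm (fun _ => L) (fun _ _ => ?_) hw hcut
    have h5 : 8 * Pool.Agent.U389.SC.err ℓ (Fintype.card E) + 46 ≤ L := hDL
    linarith

/-- **Goddyn's conjecture for weights with additive slack in the cuts.** Let `G` be a finite graph
with `N` edges, `w` an eulerian admissible weight, and `L` a real number with `L ≥ 2 ^ (4 k + 5)`, where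
`k ≥ 1` is at least the treewidth of `G`, or with `L ≥ 8 D(ℓ, N) + 46`, where no circuit has more
than `ℓ` edges (for example `ℓ = |V|`).

(1) If `w ≥ L` and `w(e) + L (|T| - 2) ≤ w(T \ e)` for every cut `T` with at least three edges and every
`e ∈ T`, then `(G, w)` has a faithful circuit cover.

(2) If for some `ε` with `0 < ε ≤ 1` we have `w ≥ L / ε` and `w(e) ≤ (1 - ε) w(T \ e)` for every cut `T` with at least
three edges and every `e ∈ T`, then `(G, w)` has a faithful circuit cover.

(3) Suppose that no circuit has more than `ℓ` edges. If for some real vector `r ≤ w` with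
`7 r(e) + 16 D(ℓ, N) + 91 ≤ 9 r(f)` for any two edges `e`, `f` the vector `w - r` satisfies the conditions
on the cuts, `(w - r)(e) ≤ (w - r)(T \ e)` for every cut `T` and every `e ∈ T`, then `(G, w)` has a
faithful circuit cover. -/
theorem result (V E : Type) [Fintype V] [DecidableEq V] [Fintype E] [DecidableEq E]
    (G : MGraph V E) (w : E → ℕ) (heul : Eulerian G w) (hadm : Admissible G w) :
    (∀ L : ℝ, Depth G L → (∀ e, L ≤ w e) →
      (∀ (X : Finset V) (T : Finset E), IsCut G X T → 3 ≤ T.card → ∀ e ∈ T,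
        (w e : ℝ) + L * ((T.card : ℝ) - 2) ≤ ∑ f ∈ T.erase e, (w f : ℝ)) →
      HasFaithfulCover G w) ∧
    (∀ L ε : ℝ, Depth G L → 0 < ε → ε ≤ 1 → (∀ e, L / ε ≤ w e) →
      (∀ (X : Finset V) (T : Finset E), IsCut G X T → 3 ≤ T.card → ∀ e ∈ T,
        (w e : ℝ) ≤ (1 - ε) * ∑ f ∈ T.erase e, (w f : ℝ)) →
      HasFaithfulCover G w) ∧
    ∀ (ℓ : ℕ) (r : E → ℝ), CircuitsAtMost G ℓ →
      (∀ e f, 7 * r e + 16 * D ℓ (Fintype.card E) + 91 ≤ 9 * r f) → (∀ e, r e ≤ w e) →
      (∀ (X : Finset V) (T : Finset E), IsCut G X T → ∀ e ∈ T,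
        (w e : ℝ) - r e ≤ ∑ f ∈ T.erase e, ((w f : ℝ) - r f)) →
      HasFaithfulCover G w := by
  refine ⟨fun L hL hw hs => additive G w heul hadm L hL hw hs, fun L ε hL hε hε1 hw hs => ?_,
    fun ℓ r hℓ hr hr0 hcut => Pool.Agent.U389.GD.goddyn_short G ℓ hℓ w heul hadm r hr hr0 hcut⟩
  have hL0 := hL.pos
  refine additive G w heul hadm L hL (fun e => ?_) fun X T hT1 hT2 e he => ?_
  · refine le_trans ?_ (hw e)
    rw [le_div_iff₀ hε]
    nlinarith
  · have h1 := hs X T hT1 hT2 e he
    have hc : (T.erase e).card + 1 = T.card := Finset.card_erase_add_one he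
    have hc' : ((T.erase e).card : ℝ) = (T.card : ℝ) - 1 := by
      rw [← hc]
      push_cast
      ring
    have h2 : ((T.card : ℝ) - 1) * (L / ε) ≤ ∑ f ∈ T.erase e, (w f : ℝ) := by
      rw [← hc', ← nsmul_eq_mul, ← Finset.sum_const]
      exact Finset.sum_le_sum fun f _ => hw f
    have h3 : ε * (((T.card : ℝ) - 1) * (L / ε)) ≤ ε * ∑ f ∈ T.erase e, (w f : ℝ) :=
      mul_le_mul_of_nonneg_left h2 hε.le
    have h4 : ε * (((T.card : ℝ) - 1) * (L / ε)) = L * ((T.card : ℝ) - 1) := by
      field_simp
    nlinarith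

end Pool.Agent.Results.MP_5dc923_co.AdditiveSlack
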